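import Pool.Agent.Helper19.CF.Flow

/-!
Cubic graphs with a near-perfect matching whose complement is bipartite: the cut condition.
(Problem MP_d067c8_co.)
-/

namespace Pool.Agent.Helper19.CF

open Finset

variable {V : Type*} [Fintype V] [DecidableEq V]

/-- The data: `Z` is a matching of the cubic graph `G` missing exactly the two vertices `s`, `t`,
and `b` is a `±1`-colouring of the vertices in which every edge outside `Z` is bichromatic. -/
structure NearData (G : SimpleGraph V) (Z : V → V → Prop) (s t : V) (b : V → ℤ) : Prop where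
  ne : s ≠ t
  symm : ∀ u v, Z u v → Z v u
  adj : ∀ u v, Z u v → G.Adj u v
  notS : ∀ v, ¬ Z s v
  notT : ∀ v, ¬ Z t v
  one : ∀ v, v ≠ s → v ≠ t → ∃! w, Z v w
  val : ∀ v, b v = 1 ∨ b v = -1
  bip : ∀ u v, G.Adj u v → ¬ Z u v → b v = - b u
  bs : b s = 1

section

variable {G : SimpleGraph V} [DecidableRel G.Adj] {Z : V → V → Prop} [DecidableRel Z]
  {s t : V} {b : V → ℤ}

theorem even_card_add_dd (hreg : ∀ v, G.degree v = 3) (Y : Finset V) :
    (3 * Y.card + dd G Y) % 2 = 0 := by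
  rw [← two_mul_card_meet G hreg Y]
  omega

omit [Fintype V] [DecidableEq V] in
theorem sum_b_parity (hb : ∀ v, b v = 1 ∨ b v = -1) (Y : Finset V) :
    (∑ v ∈ Y, b v - Y.card) % 2 = 0 := by
  classical
  induction Y using Finset.induction_on with
  | empty => simp
  | insert a S ha ih =>
    rw [sum_insert ha, card_insert_of_notMem ha]
    push_cast
    rcases hb a with h | h <;> rw [h] <;> omega

/-- Indicator of a proposition as an integer. -/
abbrev ind (p : Prop) [Decidable p] : ℤ := if p then 1 else 0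

omit [DecidableRel G.Adj] in
theorem sum_Z (h : NearData G Z s t b) (u : V) :
    ∑ v, ind (Z u v) = 1 - ind (u = s) - ind (u = t) := by
  by_cases hs : u = s
  · subst hs
    have h1 : ∀ v, ind (Z u v) = 0 := fun v => by simp [ind, h.notS v]
    simp [h1, ind, h.ne]
  · by_cases ht : u = t
    · subst ht
      have h1 : ∀ v, ind (Z u v) = 0 := fun v => by simp [ind, h.notT v]
      simp [h1, ind, hs]
    · obtain ⟨w, hw, huniq⟩ := h.one u hs ht
      rw [sum_eq_single w]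
      · simp [ind, hw, hs, ht]
      · intro v _ hv
        simp only [ind, ite_eq_right_iff, one_ne_zero, imp_false]
        exact fun hz => hv (huniq v hz)
      · intro hw'
        exact absurd (mem_univ w) hw'

omit [DecidableEq V] in
theorem sum_Adj (hreg : ∀ v, G.degree v = 3) (u : V) : ∑ v, ind (G.Adj u v) = 3 := by
  have h1 := sum_adj G u
  rw [hreg u] at h1
  have h2 : ((∑ v, (if G.Adj u v then 1 else 0) : ℕ) : ℤ) = 3 := by rw [h1]; rfl
  rw [← h2]
  push_cast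
  rfl

/-- The signed count of the non-`Z` edges leaving `Y`. -/
theorem signed_count (hreg : ∀ v, G.degree v = 3) (h : NearData G Z s t b) (Y : Finset V) :
    ∑ u ∈ Y, ∑ v ∈ Yᶜ, ind (G.Adj u v ∧ ¬ Z u v) * b u =
      2 * ∑ u ∈ Y, b u + ind (s ∈ Y) * b s + ind (t ∈ Y) * b t := by
  have hsplit : ∀ u v, ind (G.Adj u v ∧ ¬ Z u v) = ind (G.Adj u v) - ind (Z u v) := by
    intro u v
    by_cases h1 : Z u v
    · have h2 := h.adj u v h1
      simp [ind, h1, h2]
    · by_cases h2 : G.Adj u v <;> simp [ind, h1, h2]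
  have hsym : ∀ u v, ind (G.Adj u v ∧ ¬ Z u v) = ind (G.Adj v u ∧ ¬ Z v u) := by
    intro u v
    have : (G.Adj u v ∧ ¬ Z u v) ↔ (G.Adj v u ∧ ¬ Z v u) :=
      ⟨fun ⟨h1, h2⟩ => ⟨h1.symm, fun h3 => h2 (h.symm _ _ h3)⟩,
        fun ⟨h1, h2⟩ => ⟨h1.symm, fun h3 => h2 (h.symm _ _ h3)⟩⟩
    simp only [ind, this]
  have hin : ∑ u ∈ Y, ∑ v ∈ Y, ind (G.Adj u v ∧ ¬ Z u v) * b u = 0 := by
    have h1 : ∑ u ∈ Y, ∑ v ∈ Y, ind (G.Adj u v ∧ ¬ Z u v) * b u =
        - ∑ u ∈ Y, ∑ v ∈ Y, ind (G.Adj u v ∧ ¬ Z u v) * b u := by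
      conv_lhs => rw [sum_comm]
      rw [← sum_neg_distrib]
      refine sum_congr rfl fun u _ => ?_
      rw [← sum_neg_distrib]
      refine sum_congr rfl fun v _ => ?_
      rw [hsym v u]
      by_cases h2 : G.Adj u v ∧ ¬ Z u v
      · rw [h.bip u v h2.1 h2.2]
        ring
      · simp [ind, h2]
    linarith
  have hall : ∑ u ∈ Y, ∑ v, ind (G.Adj u v ∧ ¬ Z u v) * b u =
      ∑ u ∈ Y, (2 * b u + ind (u = s) * b u + ind (u = t) * b u) := by
    refine sum_congr rfl fun u _ => ?_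
    rw [← sum_mul]
    simp_rw [hsplit]
    rw [sum_sub_distrib, sum_Adj hreg, sum_Z h]
    ring
  have hdec : ∑ u ∈ Y, ∑ v, ind (G.Adj u v ∧ ¬ Z u v) * b u =
      ∑ u ∈ Y, ∑ v ∈ Y, ind (G.Adj u v ∧ ¬ Z u v) * b u +
      ∑ u ∈ Y, ∑ v ∈ Yᶜ, ind (G.Adj u v ∧ ¬ Z u v) * b u := by
    rw [← sum_add_distrib]
    exact sum_congr rfl fun u _ => (sum_add_sum_compl Y _).symm
  have hpt : ∀ x : V, ∑ u ∈ Y, ind (u = x) * b u = ind (x ∈ Y) * b x := by
    intro x
    by_cases hx : x ∈ Y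
    · rw [sum_eq_single x]
      · simp [ind, hx]
      · intro v _ hv
        simp [ind, hv]
      · intro h'
        exact absurd hx h'
    · rw [sum_eq_zero]
      · simp [ind, hx]
      · intro v hv
        have : v ≠ x := fun h' => hx (h' ▸ hv)
        simp [ind, this]
  rw [hin, zero_add] at hdec
  rw [← hdec, hall, sum_add_distrib, sum_add_distrib, ← mul_sum, hpt, hpt]

theorem balanced (hreg : ∀ v, G.degree v = 3) (h : NearData G Z s t b) :
    b t = -1 ∧ ∑ v, b v = 0 := by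
  have h1 := signed_count hreg h univ
  simp only [compl_univ, sum_empty, sum_const_zero, mem_univ, ind, if_true, one_mul] at h1
  have h2 := even_card_add_dd hreg (univ : Finset V)
  have h3 : dd G univ = 0 := by simp [dd]
  have h4 := sum_b_parity h.val (univ : Finset V)
  have h5 := h.bs
  rcases h.val t with h6 | h6 <;> rw [h6] at h1 ⊢ <;> omega

/-- The cut condition. -/
theorem cut_condition (hreg : ∀ v, G.degree v = 3) (h : NearData G Z s t b) (m : ℕ)
    (hm : 1 ≤ m)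
    (hcut : ∀ Y : Finset V, t ∈ Y → s ∉ Y →
      (∀ u ∈ Y, ∀ v ∉ Y, G.Adj u v → ¬ Z u v ∧ b u = 1) → 4 * m < dd G Y + 3)
    (Y : Finset V) : (4 * m + 1) * ∑ v ∈ Y, b v ≤ (2 * m + 1) * (dd G Y : ℤ) := by
  by_contra hcon
  push Not at hcon
  have hbt := (balanced hreg h).1
  have h1 := signed_count hreg h Y
  rw [h.bs, hbt] at h1
  set cp : ℤ := ∑ u ∈ Y, ∑ v ∈ Yᶜ, ind (G.Adj u v ∧ ¬ Z u v ∧ b u = 1) with hcp
  set cm : ℤ := ∑ u ∈ Y, ∑ v ∈ Yᶜ, ind (G.Adj u v ∧ ¬ Z u v ∧ b u = -1) with hcm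
  set z : ℤ := ∑ u ∈ Y, ∑ v ∈ Yᶜ, ind (Z u v) with hz
  have h2 : ∑ u ∈ Y, ∑ v ∈ Yᶜ, ind (G.Adj u v ∧ ¬ Z u v) * b u = cp - cm := by
    rw [hcp, hcm, ← sum_sub_distrib]
    refine sum_congr rfl fun u _ => ?_
    rw [← sum_sub_distrib]
    refine sum_congr rfl fun v _ => ?_
    by_cases h3 : G.Adj u v ∧ ¬ Z u v
    · rcases h.val u with h4 | h4 <;> simp [ind, h3, h4]
    · have h5 : ¬ (G.Adj u v ∧ ¬ Z u v ∧ b u = 1) := fun h6 => h3 ⟨h6.1, h6.2.1⟩
      have h7 : ¬ (G.Adj u v ∧ ¬ Z u v ∧ b u = -1) := fun h6 => h3 ⟨h6.1, h6.2.1⟩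
      simp only [ind, h3, h5, h7, if_false]
      ring
  have h3 : (dd G Y : ℤ) = cp + cm + z := by
    rw [hcp, hcm, hz, ← sum_add_distrib, ← sum_add_distrib]
    unfold dd
    push_cast
    refine sum_congr rfl fun u _ => ?_
    rw [← sum_add_distrib, ← sum_add_distrib]
    refine sum_congr rfl fun v _ => ?_
    by_cases h3 : Z u v
    · simp [ind, h3, h.adj u v h3]
    · by_cases h4 : G.Adj u v
      · rcases h.val u with h5 | h5 <;> simp [ind, h3, h4, h5]
      · simp [ind, h3, h4]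
  have hnn : ∀ (p : V → V → Prop) [DecidableRel p],
      (0 : ℤ) ≤ ∑ u ∈ Y, ∑ v ∈ Yᶜ, ind (p u v) := by
    intro p _
    refine sum_nonneg fun u _ => sum_nonneg fun v _ => ?_
    unfold ind
    split_ifs <;> norm_num
  have hcp0 : 0 ≤ cp := hnn _
  have hcm0 : 0 ≤ cm := hnn _
  have hz0 : 0 ≤ z := hnn _
  rw [h2] at h1
  rw [h3] at hcon
  have hm' : (1 : ℤ) ≤ m := by exact_mod_cast hm
  have hst : t ∈ Y ∧ s ∉ Y := by
    by_contra hst
    have h4 : ind (s ∈ Y) * 1 + ind (t ∈ Y) * (-1) ≥ 0 := by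
      by_cases hs : s ∈ Y
      · by_cases ht : t ∈ Y <;> simp [ind, hs, ht]
      · have ht : t ∉ Y := fun ht => hst ⟨ht, hs⟩
        simp [ind, hs, ht]
    nlinarith
  obtain ⟨ht, hs⟩ := hst
  simp only [ind, ht, hs, if_true, if_false] at h1
  have h5 : cp + (8 * m + 3) * cm + (4 * m + 2) * z < 4 * m + 1 := by nlinarith
  have hz1 : z = 0 := by
    by_contra hne
    have : 1 ≤ z := by omega
    nlinarith
  have hcm1 : cm = 0 := by
    by_contra hne
    have : 1 ≤ cm := by omega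
    nlinarith
  rw [hz1, hcm1] at h5 h3
  rw [hcm1] at h1
  have hzero : ∀ (p : V → V → Prop) [DecidableRel p],
      ∑ u ∈ Y, ∑ v ∈ Yᶜ, ind (p u v) = 0 → ∀ u ∈ Y, ∀ v ∉ Y, ¬ p u v := by
    intro p _ h0 u hu v hv hp
    have h6 : ∀ u ∈ Y, (0 : ℤ) ≤ ∑ v ∈ Yᶜ, ind (p u v) := fun u _ =>
      sum_nonneg fun v _ => by unfold ind; split_ifs <;> norm_num
    have h7 := (sum_eq_zero_iff_of_nonneg h6).mp h0 u hu
    have h8 : ∀ v ∈ Yᶜ, (0 : ℤ) ≤ ind (p u v) := fun v _ => by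
      unfold ind; split_ifs <;> norm_num
    have h9 := (sum_eq_zero_iff_of_nonneg h8).mp h7 v (mem_compl.mpr hv)
    simp [ind, hp] at h9
  have hZno := hzero (fun u v => Z u v) (by rw [← hz]; exact hz1)
  have hmno := hzero (fun u v => G.Adj u v ∧ ¬ Z u v ∧ b u = -1) (by rw [← hcm]; exact hcm1)
  have h6 := hcut Y ht hs (fun u hu v hv hadj => by
    have h7 := hZno u hu v hv
    refine ⟨h7, ?_⟩
    rcases h.val u with h8 | h8
    · exact h8
    · exact absurd ⟨hadj, h7, h8⟩ (hmno u hu v hv))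
  have h7 := even_card_add_dd hreg Y
  have h8 := sum_b_parity h.val Y
  omega

theorem hasFlow_of_nearData (hreg : ∀ v, G.degree v = 3) (h : NearData G Z s t b) (m : ℕ)
    (hm : 1 ≤ m)
    (hcut : ∀ Y : Finset V, t ∈ Y → s ∉ Y →
      (∀ u ∈ Y, ∀ v ∉ Y, G.Adj u v → ¬ Z u v ∧ b u = 1) → 4 * m < dd G Y + 3) :
    HasFlow G (4 + 1 / m) :=
  hasFlow_of_bisection G hreg m hm b h.val (balanced hreg h).2
    (cut_condition hreg h m hm hcut)

end

end Pool.Agent.Helper19.CF
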