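import Pool.Agent.Helper19.CF.Cut

/-!
Small edge cuts of cubic graphs and cycles. (Problem MP_d067c8_co.)
-/

namespace Pool.Agent.Helper19.CF

open Finset

theorem card_edge_of_acyclic {W : Type*} [Fintype W] [Nonempty W]
    (G : SimpleGraph W) [Fintype G.edgeSet] (h : G.IsAcyclic) :
    G.edgeFinset.card + 1 ≤ Fintype.card W := by
  classical
  obtain ⟨F, h1, _, h3⟩ := (SimpleGraph.connected_top (V := W)).exists_isTree_le_of_le_of_isAcyclic
    (le_top : G ≤ ⊤) h
  rw [← h3.card_edgeFinset]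
  exact Nat.add_le_add_right (card_le_card (SimpleGraph.edgeFinset_mono h1)) 1

variable {V : Type*} [Fintype V] [DecidableEq V]

theorem cutSize_coe (G : SimpleGraph V) [DecidableRel G.Adj] (Y : Finset V) :
    cutSize G (Y : Set V) = dd G Y := by
  unfold cutSize dd
  rw [Nat.card_eq_fintype_card, Fintype.card_subtype]
  rw [← sum_product', ← card_filter]
  congr 1
  ext ⟨u, v⟩
  simp [and_assoc]

theorem hasCycleIn_of_dd_le (G : SimpleGraph V) [DecidableRel G.Adj]
    (hreg : ∀ v, G.degree v = 3) (Y : Finset V) (hne : Y.Nonempty) (hd : dd G Y ≤ Y.card) :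
    HasCycleIn G (Y : Set V) := by
  classical
  let G' : SimpleGraph (Y : Set V) := G.induce (Y : Set V)
  have hE : 2 * G'.edgeFinset.card + dd G Y = 3 * Y.card := by
    rw [SimpleGraph.two_mul_card_edgeFinset]
    have h1 : (univ.filter fun p : ↥(Y : Set V) × ↥(Y : Set V) =>
        (match p with | (x, y) => G'.Adj x y)).card =
        ∑ u ∈ Y, ∑ v ∈ Y, if G.Adj u v then 1 else 0 := by
      rw [card_filter, ← univ_product_univ, sum_product]
      have h2 : ∀ (f : V → ℕ), ∑ x : (Y : Set V), f x = ∑ x ∈ Y, f x := fun f => by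
        rw [← sum_coe_sort Y f]
        rfl
      rw [← h2]
      refine sum_congr rfl fun x _ => ?_
      rw [← h2]
      exact sum_congr rfl fun y _ => rfl
    rw [h1]
    unfold dd
    rw [← sum_add_distrib]
    have h3 : ∀ u ∈ Y, ((∑ v ∈ Y, if G.Adj u v then 1 else 0) +
        ∑ v ∈ Yᶜ, if G.Adj u v then 1 else 0) = 3 := by
      intro u _
      rw [sum_add_sum_compl, sum_adj, hreg u]
    rw [sum_congr rfl h3]
    simp [mul_comm]
  have hnon : Nonempty (Y : Set V) := by
    obtain ⟨y, hy⟩ := hne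
    exact ⟨⟨y, hy⟩⟩
  have hnot : ¬ G'.IsAcyclic := by
    intro hac
    have h1 := card_edge_of_acyclic G' hac
    have h2 : Fintype.card (Y : Set V) = Y.card := by simp
    omega
  unfold SimpleGraph.IsAcyclic at hnot
  push Not at hnot
  obtain ⟨v, c, hc⟩ := hnot
  let φ : G' →g G := ⟨Subtype.val, fun h => h⟩
  refine ⟨v, c.map φ, SimpleGraph.Walk.IsCycle.map Subtype.val_injective hc, ?_⟩
  intro x hx
  rw [SimpleGraph.Walk.support_map, List.mem_map] at hx
  obtain ⟨y, _, rfl⟩ := hx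
  exact y.2

theorem isBridge_of_dd_eq_one (G : SimpleGraph V) [DecidableRel G.Adj] (Y : Finset V)
    (hd : dd G Y = 1) : ∃ e ∈ G.edgeSet, G.IsBridge e := by
  rw [← cutSize_coe] at hd
  unfold cutSize at hd
  rw [Nat.card_eq_one_iff_unique] at hd
  obtain ⟨hsub, ⟨⟨⟨u, v⟩, hu, hv, huv⟩⟩⟩ := hd
  refine ⟨s(u, v), huv, ?_⟩
  rw [SimpleGraph.isBridge_iff_forall_walk_mem_edges]
  intro p
  obtain ⟨d, hd, hd1, hd2⟩ := p.exists_boundary_dart (Y : Set V) hu hv
  have h1 := hsub.elim ⟨(d.fst, d.snd), hd1, hd2, d.adj⟩ ⟨(u, v), hu, hv, huv⟩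
  have h2 : (d.fst, d.snd) = (u, v) := congrArg Subtype.val h1
  rw [SimpleGraph.Walk.edges_eq_map_darts, List.mem_map]
  refine ⟨d, hd, ?_⟩
  have h3 : d.edge = s(d.fst, d.snd) := rfl
  rw [h3, (Prod.ext_iff.mp h2).1, (Prod.ext_iff.mp h2).2]

end Pool.Agent.Helper19.CF
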