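import Mathlib

/-!
Definitions for the hand-ins on MP_d067c8_co (circular flow numbers of cubic graphs).
-/

namespace Pool.Agent.Helper19.CF

/-- `G` has a nowhere-zero `r`-flow: a real antisymmetric function `f` on the ordered pairs of
vertices (`f u v` is the flow along the edge `uv` directed from `u` to `v`), zero off the edges,
with `1 ≤ |f| ≤ r - 1` on the edges and with Kirchhoff's law at every vertex. -/
def HasFlow {V : Type*} [Fintype V] (G : SimpleGraph V) (r : ℝ) : Prop :=
  ∃ f : V → V → ℝ, (∀ u v, f u v = - f v u) ∧ (∀ u v, ¬ G.Adj u v → f u v = 0) ∧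
    (∀ u v, G.Adj u v → 1 ≤ |f u v| ∧ |f u v| ≤ r - 1) ∧ (∀ v, ∑ u, f v u = 0)

/-- The circular flow number `F_c(G)`: the infimum of all `r` such that `G` has a nowhere-zero
`r`-flow. -/
noncomputable def circularFlowNumber {V : Type*} [Fintype V] (G : SimpleGraph V) : ℝ :=
  sInf {r : ℝ | HasFlow G r}

/-- Some cycle of `G` has all its vertices in `S`. -/
def HasCycleIn {V : Type*} (G : SimpleGraph V) (S : Set V) : Prop :=
  ∃ (u : V) (p : G.Walk u u), p.IsCycle ∧ ∀ x ∈ p.support, x ∈ S

/-- The number of edges of `G` with one end in `S` and the other end outside `S`. -/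
noncomputable def cutSize {V : Type*} (G : SimpleGraph V) (S : Set V) : ℕ :=
  Nat.card {q : V × V // q.1 ∈ S ∧ q.2 ∉ S ∧ G.Adj q.1 q.2}

/-- `G` is cyclically `k`-edge-connected: no fewer than `k` edges separate two cycles. -/
def CyclicallyEdgeConnected {V : Type*} (G : SimpleGraph V) (k : ℕ) : Prop :=
  ∀ S : Set V, HasCycleIn G S → HasCycleIn G Sᶜ → k ≤ cutSize G S

/-- The cycle permutation graph of the permutation `f` of `ZMod N`: two rims
`inl 0, inl 1, ..., inl (N - 1)` and `inr 0, inr 1, ..., inr (N - 1)`, and the spokes joining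
`inl i` to `inr (f i)`. -/
def permGraph (N : ℕ) (f : Equiv.Perm (ZMod N)) : SimpleGraph (ZMod N ⊕ ZMod N) :=
  SimpleGraph.fromRel fun x y => ∃ i : ZMod N,
    (x = .inl i ∧ y = .inl (i + 1)) ∨ (x = .inr i ∧ y = .inr (i + 1)) ∨
      (x = .inl i ∧ y = .inr (f i))

end Pool.Agent.Helper19.CF
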