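import Pool.Agent.Helper19.CF.Orient

/-!
From a balanced valuation to a nowhere-zero `(4 + 1/m)`-flow. (Problem MP_d067c8_co.)
-/

namespace Pool.Agent.Helper19.CF

open Finset

theorem circularFlowNumber_le {V : Type*} [Fintype V] (G : SimpleGraph V)
    (hne : ∃ u v, G.Adj u v) {r : ℝ} (h : HasFlow G r) : circularFlowNumber G ≤ r := by
  refine csInf_le ⟨2, ?_⟩ h
  rintro x ⟨f, _, _, h3, _⟩
  obtain ⟨u, v, huv⟩ := hne
  have := h3 u v huv
  linarith [this.1, this.2]

variable {V : Type*} [Fintype V] [DecidableEq V]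

theorem hasFlow_of_bisection (G : SimpleGraph V) [DecidableRel G.Adj]
    (hreg : ∀ v, G.degree v = 3) (m : ℕ) (hm : 1 ≤ m) (b : V → ℤ)
    (hb : ∀ v, b v = 1 ∨ b v = -1) (hsum : ∑ v, b v = 0)
    (hcut : ∀ Y : Finset V, (4 * m + 1) * ∑ v ∈ Y, b v ≤ (2 * m + 1) * (dd G Y : ℤ)) :
    HasFlow G (4 + 1 / m) := by
  obtain ⟨D, hD1, hD2, hD3, hD4⟩ := exists_orient G hreg 1 b
    (fun v => by rcases hb v with h | h <;> rw [h] <;> norm_num) hsum
    (fun Y => by
      have h1 := hcut Y
      have h2 : (0 : ℤ) ≤ dd G Y := Int.natCast_nonneg _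
      have h3 : (1 : ℤ) ≤ m := by exact_mod_cast hm
      push_cast
      by_contra hcon
      push Not at hcon
      nlinarith)
  obtain ⟨g, hg1, hg2, hg3, hg4⟩ := exists_orient G hreg (2 * m + 1) (fun v => -(4 * m + 1) * b v)
    (fun v => by rcases hb v with h | h <;> simp only [h] <;> push_cast <;> omega)
    (by rw [← mul_sum, hsum, mul_zero])
    (fun Y => by
      have h1 := hcut Yᶜ
      rw [dd_compl] at h1
      have h2 := sum_add_sum_compl Y b
      rw [hsum] at h2
      have h3 : ∑ v ∈ Yᶜ, b v = - ∑ v ∈ Y, b v := by linarith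
      rw [h3] at h1
      rw [← mul_sum]
      push_cast
      linarith)
  have hm0 : (0 : ℝ) < m := by exact_mod_cast hm
  have hDabs : ∀ u v, G.Adj u v → D u v = 1 ∨ D u v = -1 := by
    intro u v h
    obtain ⟨h1, h2⟩ := hD3 u v h
    rw [abs_le] at h1
    push_cast at h1 h2
    omega
  refine ⟨fun u v => ((4 * m + 1) * (D u v : ℝ) + (g u v : ℝ)) / (2 * m), ?_, ?_, ?_, ?_⟩
  · intro u v
    beta_reduce
    rw [hD1 u v, hg1 u v]
    push_cast
    ring
  · intro u v h
    beta_reduce
    rw [hD2 u v h, hg2 u v h]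
    simp
  · intro u v h
    have h1 := (hg3 u v h).1
    rw [abs_le] at h1
    push_cast at h1
    have h2 : -(2 * (m : ℝ) + 1) ≤ g u v ∧ (g u v : ℝ) ≤ 2 * m + 1 := by
      constructor
      · exact_mod_cast h1.1
      · exact_mod_cast h1.2
    have h3 : (0 : ℝ) < 2 * m := by linarith
    have h4 : (1 : ℝ) / m * m = 1 := by field_simp
    have h5 : (4 + 1 / (m : ℝ) - 1) * (2 * m) = 6 * m + 2 := by
      field_simp
      ring
    beta_reduce
    rcases hDabs u v h with hD | hD
    · rw [hD, abs_div, abs_of_pos h3, le_div_iff₀ h3, div_le_iff₀ h3, h5,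
        abs_of_nonneg (by push_cast; linarith)]
      push_cast
      constructor <;> linarith
    · rw [hD, abs_div, abs_of_pos h3, le_div_iff₀ h3, div_le_iff₀ h3, h5,
        abs_of_nonpos (by push_cast; linarith)]
      push_cast
      constructor <;> linarith
  · intro v
    beta_reduce
    rw [← sum_div, sum_add_distrib, ← mul_sum]
    have h1 : ∑ u, (D v u : ℝ) = b v := by exact_mod_cast hD4 v
    have h2 : ∑ u, (g v u : ℝ) = -(4 * m + 1) * b v := by exact_mod_cast hg4 v
    rw [h1, h2]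
    ring

end Pool.Agent.Helper19.CF
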