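import Pool.Agent.Helper19.CF.Cycle

/-!
Cubic graphs with a near-perfect matching whose complement is bipartite: bounds for the circular
flow number. (Problem MP_d067c8_co.)
-/

namespace Pool.Agent.Helper19.CF

open Finset

variable {V : Type*} [Fintype V] [DecidableEq V]

section

variable {G : SimpleGraph V} [DecidableRel G.Adj] {Z : V → V → Prop} [DecidableRel Z]
  {s t : V} {b : V → ℤ}

/-- `Y` contains `t` but not `s`, and all edges leaving `Y` are outside `Z` and start in the
class of `s`. -/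
structure Closed (G : SimpleGraph V) (Z : V → V → Prop) (s t : V) (b : V → ℤ) (Y : Finset V) :
    Prop where
  t_mem : t ∈ Y
  s_notMem : s ∉ Y
  out : ∀ u ∈ Y, ∀ v ∉ Y, G.Adj u v → ¬ Z u v ∧ b u = 1

theorem Closed.dd_eq (hreg : ∀ v, G.degree v = 3) (h : NearData G Z s t b) {Y : Finset V}
    (hY : Closed G Z s t b Y) : (dd G Y : ℤ) = 2 * ∑ u ∈ Y, b u - 1 := by
  have h1 := signed_count hreg h Y
  rw [h.bs, (balanced hreg h).1] at h1
  simp only [ind, hY.t_mem, hY.s_notMem, if_true, if_false] at h1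
  have h2 : (dd G Y : ℤ) = ∑ u ∈ Y, ∑ v ∈ Yᶜ, ind (G.Adj u v ∧ ¬ Z u v) * b u := by
    unfold dd
    push_cast
    refine sum_congr rfl fun u hu => sum_congr rfl fun v hv => ?_
    by_cases h3 : G.Adj u v
    · obtain ⟨h4, h5⟩ := hY.out u hu v (mem_compl.mp hv) h3
      simp [ind, h3, h4, h5]
    · simp [ind, h3]
  rw [h2]
  simp only [ind] at h1 ⊢
  rw [h1]
  ring

theorem Closed.mod_four (hreg : ∀ v, G.degree v = 3) (h : NearData G Z s t b) {Y : Finset V}
    (hY : Closed G Z s t b Y) : dd G Y % 4 = 1 := by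
  have h1 := hY.dd_eq hreg h
  have h2 := even_card_add_dd hreg Y
  have h3 := sum_b_parity h.val Y
  omega

omit [DecidableRel Z] in
theorem Closed.nbr_t (hreg : ∀ v, G.degree v = 3) (h : NearData G Z s t b) {Y : Finset V}
    [DecidableRel Z] (hY : Closed G Z s t b Y) {v : V} (hv : G.Adj t v) : v ∈ Y := by
  by_contra hcon
  have h1 := (hY.out t hY.t_mem v hcon hv).2
  rw [(balanced hreg h).1] at h1
  norm_num at h1

omit [DecidableRel G.Adj] [DecidableRel Z] [Fintype V] [DecidableEq V] in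
theorem Closed.nbr_s (h : NearData G Z s t b) {Y : Finset V}
    (hY : Closed G Z s t b Y) {v : V} (hv : G.Adj s v) : v ∉ Y := by
  intro hcon
  obtain ⟨h1, h2⟩ := hY.out v hcon s hY.s_notMem hv.symm
  have h3 := h.bip v s hv.symm h1
  rw [h.bs, h2] at h3
  norm_num at h3

theorem Closed.cycles (hreg : ∀ v, G.degree v = 3) (h : NearData G Z s t b) {Y : Finset V}
    (hY : Closed G Z s t b Y) (hd : dd G Y ≤ 5) :
    HasCycleIn G (Y : Set V) ∧ HasCycleIn G (Y : Set V)ᶜ := by
  have h4 := hY.mod_four hreg h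
  have h5 := even_card_add_dd hreg Y
  have h6 := even_card_add_dd hreg Yᶜ
  rw [dd_compl] at h6
  have hcard : ∀ (x : V) (S : Finset V), x ∈ S → (∀ v, G.Adj x v → v ∈ S) → 4 ≤ S.card := by
    intro x S hx hS
    have h1 : insert x (G.neighborFinset x) ⊆ S := by
      intro v hv
      rw [mem_insert] at hv
      rcases hv with rfl | hv
      · exact hx
      · exact hS v (by simpa using hv)
    have h2 := card_le_card h1
    rw [card_insert_of_notMem (by simp), SimpleGraph.card_neighborFinset_eq_degree, hreg x] at h2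
    exact h2
  have h7 := hcard t Y hY.t_mem fun v hv => hY.nbr_t hreg h hv
  have h8 := hcard s Yᶜ (mem_compl.mpr hY.s_notMem) fun v hv => mem_compl.mpr (hY.nbr_s h hv)
  refine ⟨hasCycleIn_of_dd_le G hreg Y ⟨t, hY.t_mem⟩ (by omega), ?_⟩
  rw [← coe_compl]
  refine hasCycleIn_of_dd_le G hreg Yᶜ ⟨s, mem_compl.mpr hY.s_notMem⟩ ?_
  rw [dd_compl]
  omega

/-- The case of small cuts: a nowhere-zero `9/2`-flow. -/
theorem hasFlow_nine_halves (hreg : ∀ v, G.degree v = 3) (h : NearData G Z s t b)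
    (h1 : ∀ Y : Finset V, Closed G Z s t b Y → HasCycleIn G (Y : Set V) →
      HasCycleIn G (Y : Set V)ᶜ → dd G Y ≠ 1 ∧ dd G Y ≠ 5) :
    HasFlow G (9 / 2) := by
  have h2 : HasFlow G (4 + 1 / (2 : ℕ)) := by
    refine hasFlow_of_nearData hreg h 2 (by norm_num) ?_
    intro Y ht hs hout
    have hY : Closed G Z s t b Y := ⟨ht, hs, hout⟩
    by_contra hcon
    have h3 := hY.mod_four hreg h
    obtain ⟨h4, h5⟩ := hY.cycles hreg h (by omega)
    obtain ⟨h6, h7⟩ := h1 Y hY h4 h5
    omega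
  have h3 : (4 + 1 / ((2 : ℕ) : ℝ)) = 9 / 2 := by norm_num
  rwa [h3] at h2

end

/-- The sign of a two-colouring relative to a vertex `s`. -/
def sgn (c : V → Bool) (s : V) (v : V) : ℤ := if c v = c s then 1 else -1

omit [Fintype V] [DecidableEq V] in
theorem nearData_of_matching (G : SimpleGraph V) (M : G.Subgraph)
    (hM : M.IsMatching) {s t : V} (hst : s ≠ t) (hv : M.verts = {s, t}ᶜ) (c : V → Bool)
    (hc : ∀ u v, G.Adj u v → ¬ M.Adj u v → c u ≠ c v) :
    NearData G M.Adj s t (sgn c s) where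
  ne := hst
  symm u v h := h.symm
  adj u v h := M.adj_sub h
  notS v h := by
    have := M.edge_vert h
    rw [hv] at this
    simp at this
  notT v h := by
    have := M.edge_vert h
    rw [hv] at this
    simp at this
  one v h1 h2 := hM (by rw [hv]; simp [h1, h2])
  val v := by unfold sgn; split_ifs <;> simp
  bip u v h1 h2 := by
    have h3 := hc u v h1 h2
    unfold sgn
    cases hu : c u <;> cases hw : c v <;> cases hs : c s <;> simp_all
  bs := by simp [sgn]

omit [DecidableEq V] in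
theorem exists_adj (G : SimpleGraph V) [DecidableRel G.Adj] (hreg : ∀ v, G.degree v = 3) (s : V) :
    ∃ u v, G.Adj u v := by
  have h1 : 0 < G.degree s := by rw [hreg s]; norm_num
  obtain ⟨v, hv⟩ := (G.degree_pos_iff_exists_adj s).mp h1
  exact ⟨s, v, hv⟩

/-- Part (1). -/
theorem part_one (G : SimpleGraph V) [DecidableRel G.Adj] (hreg : G.IsRegularOfDegree 3)
    (M : G.Subgraph) (hM : M.IsMatching) (s t : V) (hst : s ≠ t) (hv : M.verts = {s, t}ᶜ)
    (c : V → Bool) (hc : ∀ u v, G.Adj u v → ¬ M.Adj u v → c u ≠ c v) (m : ℕ) (hm : 1 ≤ m)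
    (hcut : ∀ S : Set V, t ∈ S → s ∉ S →
      (∀ u ∈ S, ∀ v ∉ S, G.Adj u v → ¬ M.Adj u v ∧ c u = c s) → 4 * m + 1 ≤ cutSize G S) :
    circularFlowNumber G ≤ 4 + 1 / m := by
  classical
  have hD := nearData_of_matching G M hM hst hv c hc
  refine circularFlowNumber_le G (exists_adj G hreg s) (hasFlow_of_nearData hreg hD m hm ?_)
  intro Y ht hs hout
  have h1 := hcut (Y : Set V) ht hs (fun u hu v hv hadj => by
    obtain ⟨h2, h3⟩ := hout u hu v hv hadj
    refine ⟨h2, ?_⟩
    unfold sgn at h3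
    by_contra hcon
    simp [hcon] at h3)
  rw [cutSize_coe] at h1
  omega

/-- Part (2). -/
theorem part_two (G : SimpleGraph V) [DecidableRel G.Adj] (hreg : G.IsRegularOfDegree 3)
    (hbr : ∀ e ∈ G.edgeSet, ¬ G.IsBridge e)
    (M : G.Subgraph) (hM : M.IsMatching) (s t : V) (hst : s ≠ t) (hv : M.verts = {s, t}ᶜ)
    (hbip : (G.deleteEdges M.edgeSet).Colorable 2)
    (hcut : ∀ S : Set V, HasCycleIn G S → HasCycleIn G Sᶜ → cutSize G S = 5 →
      ∃ u ∈ S, ∃ v ∉ S, M.Adj u v) :
    circularFlowNumber G ≤ 9 / 2 := by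
  classical
  obtain ⟨C⟩ := hbip
  let c : V → Bool := fun v => decide (C v = 0)
  have hc : ∀ u v, G.Adj u v → ¬ M.Adj u v → c u ≠ c v := by
    intro u v h1 h2
    have h3 : (G.deleteEdges M.edgeSet).Adj u v := by
      rw [SimpleGraph.deleteEdges_adj]
      exact ⟨h1, h2⟩
    have h4 := C.valid h3
    simp only [c, ne_eq, decide_eq_decide]
    omega
  have hD := nearData_of_matching G M hM hst hv c hc
  refine circularFlowNumber_le G (exists_adj G hreg s) (hasFlow_nine_halves hreg hD ?_)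
  intro Y hY h1 h2
  constructor
  · intro h3
    obtain ⟨e, he, hb⟩ := isBridge_of_dd_eq_one G Y h3
    exact hbr e he hb
  · intro h3
    obtain ⟨u, hu, v, hv, huv⟩ := hcut Y h1 h2 (by rw [cutSize_coe]; exact h3)
    exact (hY.out u hu v hv (M.adj_sub huv)).1 huv

end Pool.Agent.Helper19.CF
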