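import Pool.Agent.Helper19.CF.Defs

/-!
Orientations of multiples of a cubic graph with prescribed divergence, by Hall's theorem.
(Problem MP_d067c8_co.)
-/

namespace Pool.Agent.Helper19.CF

open Finset

variable {V : Type*} [Fintype V] [DecidableEq V]

/-- The number of edges with one end in `Y` and the other end outside `Y`. -/
def dd (G : SimpleGraph V) [DecidableRel G.Adj] (Y : Finset V) : ℕ :=
  ∑ u ∈ Y, ∑ v ∈ Yᶜ, if G.Adj u v then 1 else 0

theorem dd_compl (G : SimpleGraph V) [DecidableRel G.Adj] (Y : Finset V) :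
    dd G Yᶜ = dd G Y := by
  unfold dd
  rw [compl_compl, sum_comm]
  refine sum_congr rfl fun u _ => sum_congr rfl fun v _ => ?_
  simp only [G.adj_comm u v]

omit [DecidableEq V] in
theorem sum_adj (G : SimpleGraph V) [DecidableRel G.Adj] (u : V) :
    ∑ v, (if G.Adj u v then 1 else 0) = G.degree u := by
  rw [← SimpleGraph.card_neighborFinset_eq_degree, Finset.card_eq_sum_ones]
  rw [← Finset.sum_filter]
  congr 1
  ext v
  simp

/-- The graph of the edges meeting `Y`. -/
def meetGraph (G : SimpleGraph V) (Y : Finset V) : SimpleGraph V where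
  Adj u v := G.Adj u v ∧ (u ∈ Y ∨ v ∈ Y)
  symm := ⟨fun _ _ h => ⟨h.1.symm, h.2.symm⟩⟩
  loopless := ⟨fun _ h => G.loopless.1 _ h.1⟩

instance (G : SimpleGraph V) [DecidableRel G.Adj] (Y : Finset V) :
    DecidableRel (meetGraph G Y).Adj := fun u v =>
  inferInstanceAs (Decidable (G.Adj u v ∧ (u ∈ Y ∨ v ∈ Y)))

theorem meet_edgeFinset (G : SimpleGraph V) [DecidableRel G.Adj] (Y : Finset V) :
    (meetGraph G Y).edgeFinset = Y.biUnion fun v => G.incidenceFinset v := by
  ext e
  induction e using Sym2.inductionOn with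
  | hf u v =>
    simp only [SimpleGraph.mem_edgeFinset, SimpleGraph.mem_edgeSet, mem_biUnion,
      SimpleGraph.mem_incidenceFinset, SimpleGraph.incidenceSet, Set.mem_ofPred_eq, Sym2.mem_iff]
    constructor
    · rintro ⟨h, hu | hv⟩
      · exact ⟨u, hu, h, Or.inl rfl⟩
      · exact ⟨v, hv, h, Or.inr rfl⟩
    · rintro ⟨w, hw, h, rfl | rfl⟩
      · exact ⟨h, Or.inl hw⟩
      · exact ⟨h, Or.inr hw⟩

theorem two_mul_card_meet (G : SimpleGraph V) [DecidableRel G.Adj]
    (hreg : ∀ v, G.degree v = 3) (Y : Finset V) :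
    2 * (Y.biUnion fun v => G.incidenceFinset v).card = 3 * Y.card + dd G Y := by
  rw [← meet_edgeFinset, SimpleGraph.two_mul_card_edgeFinset]
  have h1 : (univ.filter fun p : V × V => (meetGraph G Y).Adj p.1 p.2).card =
      ∑ u, ∑ v, if (meetGraph G Y).Adj u v then 1 else 0 := by
    rw [card_filter, ← univ_product_univ, sum_product]
  have h2 : ∀ p : V × V, (match p with | (x, y) => (meetGraph G Y).Adj x y) =
      (meetGraph G Y).Adj p.1 p.2 := fun p => rfl
  simp only [h2]
  rw [h1, ← sum_add_sum_compl Y]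
  have h3 : ∑ u ∈ Y, ∑ v, (if (meetGraph G Y).Adj u v then 1 else 0) = 3 * Y.card := by
    rw [sum_congr rfl (g := fun _ => 3)]
    · simp [mul_comm]
    · intro u hu
      rw [← hreg u, ← sum_adj G u]
      refine sum_congr rfl fun v _ => ?_
      simp [meetGraph, hu]
  have h4 : ∑ u ∈ Yᶜ, ∑ v, (if (meetGraph G Y).Adj u v then 1 else 0) = dd G Y := by
    rw [← dd_compl]
    unfold dd
    refine sum_congr rfl fun u hu => ?_
    rw [compl_compl, ← sum_add_sum_compl Y]
    have hu' : u ∉ Y := mem_compl.mp hu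
    have h5 : ∑ v ∈ Yᶜ, (if (meetGraph G Y).Adj u v then 1 else 0) = 0 := by
      refine sum_eq_zero fun v hv => ?_
      have hv' : v ∉ Y := mem_compl.mp hv
      simp [meetGraph, hu', hv']
    rw [h5, add_zero]
    refine sum_congr rfl fun v hv => ?_
    simp [meetGraph, hv]
  rw [h3, h4]

theorem dd_singleton_le (G : SimpleGraph V) [DecidableRel G.Adj] (v : V) :
    dd G {v} ≤ G.degree v := by
  unfold dd
  rw [sum_singleton, ← sum_adj G v]
  exact sum_le_sum_of_subset (subset_univ _)

theorem sum_incidence (G : SimpleGraph V) [DecidableRel G.Adj] (u : V) (c : Sym2 V → ℕ) :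
    ∑ v, (if G.Adj u v then c s(u, v) else 0) = ∑ e ∈ G.incidenceFinset u, c e := by
  rw [← sum_filter]
  symm
  refine (sum_bij (fun v _ => s(u, v)) ?_ ?_ ?_ ?_).symm
  · intro v hv
    rw [mem_filter] at hv
    rw [SimpleGraph.mem_incidenceFinset]
    exact ⟨hv.2, Sym2.mem_mk_left u v⟩
  · intro v hv w hw h
    have h1 : v = w ∨ u = w ∧ v = u := by simpa using h
    rcases h1 with h1 | ⟨h1, h2⟩
    · exact h1
    · exact h2.trans h1
  · intro e he
    rw [SimpleGraph.mem_incidenceFinset] at he
    obtain ⟨he1, he2⟩ := he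
    obtain ⟨v, rfl⟩ := Sym2.mem_iff_exists.mp he2
    exact ⟨v, by simpa using he1, rfl⟩
  · intro v hv
    rfl

/-- Orientation lemma: if `∑_{v ∈ Y} β v ≤ k d(Y)` for all `Y` (and the trivial necessary
conditions hold), there is an antisymmetric integral function on the edges with values of the
parity of `k` and absolute value at most `k`, and with divergence `β`. -/
theorem exists_orient (G : SimpleGraph V) [DecidableRel G.Adj]
    (hreg : ∀ v, G.degree v = 3) (k : ℕ) (β : V → ℤ)
    (hpar : ∀ v, (3 * (k : ℤ) + β v) % 2 = 0) (hsum : ∑ v, β v = 0)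
    (hcut : ∀ Y : Finset V, ∑ v ∈ Y, β v ≤ k * dd G Y) :
    ∃ h : V → V → ℤ, (∀ u v, h u v = - h v u) ∧ (∀ u v, ¬ G.Adj u v → h u v = 0) ∧
      (∀ u v, G.Adj u v → |h u v| ≤ k ∧ (h u v - k) % 2 = 0) ∧ ∀ v, ∑ u, h v u = β v := by
  classical
  have hnn : ∀ v, 0 ≤ 3 * (k : ℤ) + β v := by
    intro v
    have h1 := hcut {v}ᶜ
    rw [dd_compl] at h1
    have h2 : (dd G {v} : ℤ) ≤ 3 := by
      have := dd_singleton_le G v
      rw [hreg v] at this
      exact_mod_cast this
    have h3 : ∑ u ∈ ({v} : Finset V)ᶜ, β u = - β v := by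
      have := sum_add_sum_compl ({v} : Finset V) β
      rw [hsum, sum_singleton] at this
      linarith
    rw [h3] at h1
    nlinarith
  let out : V → ℕ := fun v => ((3 * (k : ℤ) + β v) / 2).toNat
  have hout : ∀ v, 2 * (out v : ℤ) = 3 * (k : ℤ) + β v := by
    intro v
    have h1 := hpar v
    have h2 := hnn v
    simp only [out]
    rw [Int.toNat_of_nonneg (by omega)]
    omega
  let t : (Σ v, Fin (out v)) → Finset (Sym2 V × Fin k) := fun x =>
    G.incidenceFinset x.1 ×ˢ univ
  have hall : ∀ s : Finset (Σ v, Fin (out v)), s.card ≤ (s.biUnion t).card := by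
    intro s
    let Y : Finset V := s.image Sigma.fst
    have h1 : s.card ≤ ∑ v ∈ Y, out v := by
      have h2 : s ⊆ Y.sigma fun v => (univ : Finset (Fin (out v))) := by
        intro x hx
        rw [mem_sigma]
        exact ⟨mem_image_of_mem _ hx, mem_univ _⟩
      refine (card_le_card h2).trans ?_
      rw [card_sigma]
      simp
    have h3 : s.biUnion t = (Y.biUnion fun v => G.incidenceFinset v) ×ˢ (univ : Finset (Fin k)) := by
      ext ⟨e, j⟩
      simp only [t, Y, mem_biUnion, mem_product, mem_univ, and_true, mem_image]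
      constructor
      · rintro ⟨x, hx, he⟩
        exact ⟨x.1, ⟨x, hx, rfl⟩, he⟩
      · rintro ⟨v, ⟨x, hx, rfl⟩, he⟩
        exact ⟨x, hx, he⟩
    rw [h3, card_product, card_univ, Fintype.card_fin]
    refine h1.trans ?_
    have h4 := two_mul_card_meet G hreg Y
    have h5 := hcut Y
    have h6 : 2 * ((∑ v ∈ Y, out v : ℕ) : ℤ) = 3 * k * Y.card + ∑ v ∈ Y, β v := by
      push_cast
      rw [mul_sum]
      simp_rw [hout]
      rw [sum_add_distrib]
      simp [mul_comm]
    have h7 : (2 * ((Y.biUnion fun v => G.incidenceFinset v).card : ℤ)) =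
        3 * Y.card + dd G Y := by exact_mod_cast h4
    have h8 : ((∑ v ∈ Y, out v : ℕ) : ℤ) ≤
        (((Y.biUnion fun v => G.incidenceFinset v).card * k : ℕ) : ℤ) := by
      push_cast
      push_cast at h6
      nlinarith
    exact_mod_cast h8
  obtain ⟨f, hf, hmem⟩ := (all_card_le_biUnion_card_iff_exists_injective t).mp hall
  have hinc : ∀ x, (f x).1 ∈ G.incidenceFinset x.1 := fun x => (mem_product.mp (hmem x)).1
  let c : V → Sym2 V → ℕ := fun u e =>
    (univ.filter fun i : Fin (out u) => (f ⟨u, i⟩).1 = e).card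
  have hc0 : ∀ u e, u ∉ e → c u e = 0 := by
    intro u e hu
    rw [card_eq_zero, filter_eq_empty_iff]
    intro i _ he
    have h1 := hinc ⟨u, i⟩
    rw [SimpleGraph.mem_incidenceFinset, he] at h1
    exact hu h1.2
  have hii : ∀ u, ∑ v, (if G.Adj u v then c u s(u, v) else 0) = out u := by
    intro u
    rw [sum_incidence]
    have h1 := card_eq_sum_card_fiberwise (s := (univ : Finset (Fin (out u))))
      (t := G.incidenceFinset u) (f := fun i => (f ⟨u, i⟩).1) (fun i _ => hinc ⟨u, i⟩)
    rw [card_univ, Fintype.card_fin] at h1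
    exact h1.symm
  let S : Sym2 V → ℕ := fun e => (univ.filter fun x : (Σ v, Fin (out v)) => (f x).1 = e).card
  have hS : ∀ e, S e = ∑ w, c w e := by
    intro e
    simp only [S, c, card_filter]
    rw [← univ_sigma_univ, sum_sigma]
  have hSk : ∀ e, S e ≤ k := by
    intro e
    have h1 : S e ≤ (univ : Finset (Fin k)).card := by
      refine card_le_card_of_injOn (fun x => (f x).2) (fun _ _ => mem_univ _) ?_
      intro x hx y hy hxy
      simp only [coe_filter, mem_univ, true_and, Set.mem_ofPred_eq] at hx hy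
      exact hf (Prod.ext (hx.trans hy.symm) hxy)
    simpa using h1
  have hStot : ∑ e ∈ G.edgeFinset, S e = ∑ v, out v := by
    have h1 := card_eq_sum_card_fiberwise (s := (univ : Finset (Σ v, Fin (out v))))
      (t := G.edgeFinset) (f := fun x => (f x).1)
      (fun x _ => G.incidenceFinset_subset x.1 (hinc x))
    rw [← h1, card_univ, Fintype.card_sigma]
    simp
  have hE : 2 * G.edgeFinset.card = 3 * Fintype.card V := by
    rw [← G.sum_degrees_eq_twice_card_edges]
    simp [hreg, mul_comm]
  have hSeq : ∀ e ∈ G.edgeFinset, S e = k := by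
    have h1 : ∑ e ∈ G.edgeFinset, S e = ∑ e ∈ G.edgeFinset, k := by
      rw [hStot, sum_const, smul_eq_mul]
      have h2 : 2 * ((∑ v, out v : ℕ) : ℤ) = 3 * k * Fintype.card V := by
        push_cast
        rw [mul_sum]
        simp_rw [hout]
        rw [sum_add_distrib, hsum]
        simp [mul_comm]
      have h3 : 2 * (G.edgeFinset.card : ℤ) = 3 * Fintype.card V := by exact_mod_cast hE
      have h4 : ((∑ v, out v : ℕ) : ℤ) = ((G.edgeFinset.card * k : ℕ) : ℤ) := by
        push_cast
        push_cast at h2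
        nlinarith
      exact_mod_cast h4
    exact (sum_eq_sum_iff_of_le fun e _ => hSk e).mp h1
  have hi : ∀ u v, G.Adj u v → c u s(u, v) + c v s(u, v) = k := by
    intro u v huv
    have h1 := hSeq s(u, v) (by simpa using huv)
    rw [hS, ← sum_subset (subset_univ ({u, v} : Finset V)), sum_pair huv.ne] at h1
    · exact h1
    · intro w _ hw
      apply hc0
      rw [Sym2.mem_iff]
      rw [mem_insert, mem_singleton] at hw
      exact hw
  refine ⟨fun u v => if G.Adj u v then (c u s(u, v) : ℤ) - c v s(u, v) else 0,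
    ?_, ?_, ?_, ?_⟩
  · intro u v
    by_cases h : G.Adj u v
    · have h' := h.symm
      simp only [h, h', if_true]
      rw [Sym2.eq_swap]
      ring
    · have h' : ¬ G.Adj v u := fun h2 => h h2.symm
      simp [h, h']
  · intro u v h
    simp [h]
  · intro u v h
    simp only [h, if_true]
    have h1 := hi u v h
    constructor
    · rw [abs_le]
      constructor <;> omega
    · omega
  · intro u
    have h1 : ∀ v, (if G.Adj u v then (c u s(u, v) : ℤ) - c v s(u, v) else 0) =
        2 * ((if G.Adj u v then c u s(u, v) else 0 : ℕ) : ℤ) -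
          k * ((if G.Adj u v then 1 else 0 : ℕ) : ℤ) := by
      intro v
      by_cases h : G.Adj u v
      · have h1 := hi u v h
        simp only [h, if_true]
        push_cast
        have h2 : (c u s(u, v) : ℤ) + c v s(u, v) = k := by exact_mod_cast h1
        linarith
      · simp [h]
    rw [sum_congr rfl fun v _ => h1 v, sum_sub_distrib, ← mul_sum, ← mul_sum,
      ← Nat.cast_sum, ← Nat.cast_sum, hii u, sum_adj, hreg u, hout u]
    push_cast
    ring

end Pool.Agent.Helper19.CF
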