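import Pool.Agent.Helper19.CF.Near

/-!
Cycle permutation graphs. (Problem MP_d067c8_co.)
-/

namespace Pool.Agent.Helper19.CF

open Finset

section arith

variable {N : ℕ} [NeZero N]

theorem val_succ (w : ZMod N) (h : w ≠ -1) : (w + 1).val = w.val + 1 := by
  have hN : 1 < N := by
    rcases Nat.lt_or_ge 1 N with h1 | h1
    · exact h1
    · exfalso
      have h2 : N = 1 := by
        have := NeZero.ne N
        omega
      subst h2
      exact h (Subsingleton.elim _ _)
  have : Fact (1 < N) := ⟨hN⟩
  have h1 : w.val + 1 < N := by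
    have h2 := ZMod.val_lt w
    rcases Nat.lt_or_ge (w.val + 1) N with h3 | h3
    · exact h3
    · exfalso
      have h4 : w.val + 1 = N := by omega
      apply h
      have h5 : ((w.val + 1 : ℕ) : ZMod N) = 0 := by rw [h4]; simp
      rw [Nat.cast_add, ZMod.natCast_zmod_val, Nat.cast_one] at h5
      exact eq_neg_of_add_eq_zero_left h5
  have h6 := ZMod.val_add_of_lt (a := w) (b := 1) (by rw [ZMod.val_one]; exact h1)
  rw [h6, ZMod.val_one]

theorem val_neg_one' (hN : 1 < N) : (-1 : ZMod N).val = N - 1 := by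
  have : Fact (1 < N) := ⟨hN⟩
  rw [ZMod.neg_val, if_neg one_ne_zero, ZMod.val_one]

theorem val_neg' (w : ZMod N) (h : w ≠ 0) : (-w).val = N - w.val := by
  rw [ZMod.neg_val, if_neg h]

end arith

section adj

variable {N : ℕ} [NeZero N] {σ : Equiv.Perm (ZMod N)}

omit [NeZero N] in
theorem adj_ll (hN : 1 < N) (i j : ZMod N) :
    (permGraph N σ).Adj (.inl i) (.inl j) ↔ j = i + 1 ∨ i = j + 1 := by
  have : Fact (1 < N) := ⟨hN⟩
  unfold permGraph
  rw [SimpleGraph.fromRel_adj]
  simp only [ne_eq, Sum.inl.injEq, reduceCtorEq, and_false, or_false]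
  constructor
  · rintro ⟨_, ⟨k, rfl, rfl⟩ | ⟨k, rfl, rfl⟩⟩
    · exact Or.inl rfl
    · exact Or.inr rfl
  · intro h
    refine ⟨?_, ?_⟩
    · rintro rfl
      rcases h with h | h <;> simp at h
    · rcases h with h | h
      · exact Or.inl ⟨i, rfl, h⟩
      · exact Or.inr ⟨j, rfl, h⟩

omit [NeZero N] in
theorem adj_rr (hN : 1 < N) (i j : ZMod N) :
    (permGraph N σ).Adj (.inr i) (.inr j) ↔ j = i + 1 ∨ i = j + 1 := by
  have : Fact (1 < N) := ⟨hN⟩
  unfold permGraph
  rw [SimpleGraph.fromRel_adj]
  simp only [ne_eq, Sum.inr.injEq, reduceCtorEq, false_and, and_false, or_false, false_or]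
  constructor
  · rintro ⟨_, ⟨k, rfl, rfl⟩ | ⟨k, rfl, rfl⟩⟩
    · exact Or.inl rfl
    · exact Or.inr rfl
  · intro h
    refine ⟨?_, ?_⟩
    · rintro rfl
      rcases h with h | h <;> simp at h
    · rcases h with h | h
      · exact Or.inl ⟨i, rfl, h⟩
      · exact Or.inr ⟨j, rfl, h⟩

omit [NeZero N] in
theorem adj_lr (i j : ZMod N) :
    (permGraph N σ).Adj (.inl i) (.inr j) ↔ σ i = j := by
  unfold permGraph
  rw [SimpleGraph.fromRel_adj]
  simp [eq_comm]

omit [NeZero N] in
theorem adj_rl (i j : ZMod N) :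
    (permGraph N σ).Adj (.inr j) (.inl i) ↔ σ i = j := by
  rw [SimpleGraph.adj_comm, adj_lr]

omit [NeZero N] in
theorem two_ne (hN : 2 < N) : (2 : ZMod N) ≠ 0 := by
  intro h
  have h1 : ((2 : ℕ) : ZMod N) = 0 := by exact_mod_cast h
  rw [ZMod.natCast_eq_zero_iff] at h1
  exact absurd (Nat.le_of_dvd (by norm_num) h1) (by omega)

theorem permGraph_regular (hN : 2 < N) [DecidableRel (permGraph N σ).Adj] :
    (permGraph N σ).IsRegularOfDegree 3 := by
  classical
  have h2 := two_ne hN
  have hpm : ∀ i : ZMod N, i + 1 ≠ i - 1 := by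
    intro i h
    apply h2
    have : (2 : ZMod N) = (i + 1) - (i - 1) := by ring
    rw [this, h, sub_self]
  intro x
  rcases x with i | j
  · have h1 : (permGraph N σ).neighborFinset (.inl i) = {.inl (i + 1), .inl (i - 1), .inr (σ i)} := by
      ext y
      rw [SimpleGraph.mem_neighborFinset]
      rcases y with y | y
      · rw [adj_ll (by omega)]
        simp only [mem_insert, mem_singleton, Sum.inl.injEq, reduceCtorEq, or_false]
        constructor
        · rintro (h | h)
          · exact Or.inl h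
          · exact Or.inr (by rw [h]; ring)
        · rintro (h | h)
          · exact Or.inl h
          · exact Or.inr (by rw [h]; ring)
      · rw [adj_lr]
        simp only [mem_insert, mem_singleton, reduceCtorEq, Sum.inr.injEq, false_or]
        exact eq_comm
    rw [← SimpleGraph.card_neighborFinset_eq_degree, h1, card_insert_of_notMem, card_pair]
    · simp
    · simp [hpm i]
  · have h1 : (permGraph N σ).neighborFinset (.inr j) =
        {.inr (j + 1), .inr (j - 1), .inl (σ.symm j)} := by
      ext y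
      rw [SimpleGraph.mem_neighborFinset]
      rcases y with y | y
      · rw [adj_rl]
        simp only [mem_insert, mem_singleton, reduceCtorEq, Sum.inl.injEq, false_or]
        exact ⟨fun h => by rw [← h]; simp, fun h => by rw [h]; simp⟩
      · rw [adj_rr (by omega)]
        simp only [mem_insert, mem_singleton, Sum.inr.injEq, reduceCtorEq, or_false]
        constructor
        · rintro (h | h)
          · exact Or.inl h
          · exact Or.inr (by rw [h]; ring)
        · rintro (h | h)
          · exact Or.inl h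
          · exact Or.inr (by rw [h]; ring)
    rw [← SimpleGraph.card_neighborFinset_eq_degree, h1, card_insert_of_notMem, card_pair]
    · simp
    · simp [hpm j]

end adj

/-- The near-perfect matching: all spokes except those at `a`, `a'` and `z'`, and the rim edges
`a a'`, `z z'`. -/
def stateZ {N : ℕ} (σ : Equiv.Perm (ZMod N)) (a a' z z' : ZMod N) :
    ZMod N ⊕ ZMod N → ZMod N ⊕ ZMod N → Prop
  | .inl x, .inl y => (x = a ∧ y = a') ∨ (x = a' ∧ y = a)
  | .inr x, .inr y => (x = z ∧ y = z') ∨ (x = z' ∧ y = z)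
  | .inl x, .inr y => σ x = y ∧ x ≠ a ∧ x ≠ a' ∧ y ≠ z'
  | .inr y, .inl x => σ x = y ∧ x ≠ a ∧ x ≠ a' ∧ y ≠ z'

/-- The colouring. -/
def stateB {N : ℕ} (ε η a' z' : ZMod N) : ZMod N ⊕ ZMod N → ℤ
  | .inl x => if (ε * (x - a')).val % 2 = 0 then 1 else -1
  | .inr y => if (η * (y - z')).val % 2 = 0 then -1 else 1

section state

variable {N : ℕ} [NeZero N] {σ : Equiv.Perm (ZMod N)}

theorem rim_parity {ε a' x y : ZMod N} (hε : ε * ε = 1)
    (hxy : y = x + ε) (hne : ¬ (x = a' - ε)) :
    ((ε * (x - a')).val % 2 = 0) ↔ ¬ ((ε * (y - a')).val % 2 = 0) := by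
  have h1 : ε * (y - a') = ε * (x - a') + 1 := by
    rw [hxy, ← hε]; ring
  have h2 : ε * (x - a') ≠ -1 := by
    intro h
    apply hne
    have h3 : ε * (ε * (x - a')) = ε * (-1) := by rw [h]
    rw [← mul_assoc, hε, one_mul] at h3
    have h4 : x = a' + (x - a') := by ring
    rw [h4, h3]; ring
  rw [h1, val_succ _ h2]
  omega

/-- The hypotheses of a good state. -/
structure Good (σ : Equiv.Perm (ZMod N)) (a ε η : ZMod N) : Prop where
  heps : ε = 1 ∨ ε = -1
  heta : η = 1 ∨ η = -1
  g1 : (η * (σ (a + ε) - σ a)).val % 2 = 1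
  g2 : (ε * (σ.symm (σ a + η) - a)).val % 2 = 1
  no4 : σ (a + ε) ≠ σ a + η

omit [NeZero N] in
theorem sq_of {ε : ZMod N} (h : ε = 1 ∨ ε = -1) : ε * ε = 1 := by
  rcases h with h | h <;> rw [h] <;> ring

omit [NeZero N] in
theorem adj_iff_eps {ε : ZMod N} (h : ε = 1 ∨ ε = -1) (x y : ZMod N) :
    (y = x + 1 ∨ x = y + 1) ↔ (y = x + ε ∨ x = y + ε) := by
  rcases h with h | h
  · rw [h]
  · rw [h]
    constructor
    · rintro (h1 | h1)
      · exact Or.inr (by rw [h1]; ring)
      · exact Or.inl (by rw [h1]; ring)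
    · rintro (h1 | h1)
      · exact Or.inr (by rw [h1]; ring)
      · exact Or.inl (by rw [h1]; ring)

omit [NeZero N] in
theorem eps_ne_zero {ε : ZMod N} (hN : 1 < N) (h : ε = 1 ∨ ε = -1) : ε ≠ 0 := by
  have : Fact (1 < N) := ⟨hN⟩
  rcases h with h | h <;> rw [h] <;> simp

/-- From odd to even: if `ε (x - a)` has odd representative, `ε (x - (a + ε))` has even
representative. -/
theorem shift_parity {ε a x : ZMod N} (hε : ε * ε = 1)
    (h : (ε * (x - a)).val % 2 = 1) : (ε * (x - (a + ε))).val % 2 = 0 := by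
  have h1 : ε * (x - a) = ε * (x - (a + ε)) + 1 := by
    rw [← hε]; ring
  have h2 : ε * (x - (a + ε)) ≠ -1 := by
    intro h3
    rw [h1, h3] at h
    simp at h
  rw [h1, val_succ _ h2] at h
  omega

omit [NeZero N] in
theorem stateB_val (ε η a' z' : ZMod N) (v : ZMod N ⊕ ZMod N) :
    stateB ε η a' z' v = 1 ∨ stateB ε η a' z' v = -1 := by
  rcases v with x | x <;> simp only [stateB] <;> split_ifs <;> simp

theorem nearData_of_good (hN : 2 < N) (hodd : N % 2 = 1) {a ε η : ZMod N} (h : Good σ a ε η) :
    NearData (permGraph N σ) (stateZ σ a (a + ε) (σ a) (σ a + η))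
      (.inl (σ.symm (σ a + η))) (.inr (σ (a + ε)))
      (stateB ε η (a + ε) (σ a + η)) := by
  have hε2 := sq_of h.heps
  have hη2 := sq_of h.heta
  have hε0 := eps_ne_zero (by omega) h.heps
  have hη0 := eps_ne_zero (by omega) h.heta
  have haa : a ≠ a + ε := by simpa using hε0
  have hzz : σ a ≠ σ a + η := by simpa using hη0
  have hsa : σ.symm (σ a + η) ≠ a := by
    intro h1
    have h2 : σ a + η = σ a := σ.symm_apply_eq.mp h1
    exact hzz h2.symm
  have hsa' : σ.symm (σ a + η) ≠ a + ε := by
    intro h1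
    exact h.no4 (σ.symm_apply_eq.mp h1).symm
  have hta : σ (a + ε) ≠ σ a := fun h1 => haa (σ.injective h1).symm
  have h2g := shift_parity hε2 h.g2
  have h1g := shift_parity hη2 h.g1
  have hm1 : ((-1 : ZMod N)).val % 2 = 0 := by
    rw [val_neg_one' (by omega)]
    omega
  have hEa : (ε * (a - (a + ε))).val % 2 = 0 := by
    have : ε * (a - (a + ε)) = -1 := by rw [← hε2]; ring
    rw [this]; exact hm1
  have hEz : (η * (σ a - (σ a + η))).val % 2 = 0 := by
    have : η * (σ a - (σ a + η)) = -1 := by rw [← hη2]; ring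
    rw [this]; exact hm1
  constructor
  · simp
  · rintro (x | x) (y | y) hz
    · rcases hz with hz | hz
      · exact Or.inr ⟨hz.2, hz.1⟩
      · exact Or.inl ⟨hz.2, hz.1⟩
    · exact hz
    · exact hz
    · rcases hz with hz | hz
      · exact Or.inr ⟨hz.2, hz.1⟩
      · exact Or.inl ⟨hz.2, hz.1⟩
  · rintro (x | x) (y | y) hz
    · rw [adj_ll (by omega), adj_iff_eps h.heps]
      rcases hz with ⟨rfl, rfl⟩ | ⟨rfl, rfl⟩
      · exact Or.inl rfl
      · exact Or.inr rfl
    · rw [adj_lr]; exact hz.1
    · rw [adj_rl]; exact hz.1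
    · rw [adj_rr (by omega), adj_iff_eps h.heta]
      rcases hz with ⟨rfl, rfl⟩ | ⟨rfl, rfl⟩
      · exact Or.inl rfl
      · exact Or.inr rfl
  · rintro (y | y) hz
    · rcases hz with hz | hz
      · exact hsa hz.1
      · exact hsa' hz.1
    · obtain ⟨h1, _, _, h4⟩ := hz
      apply h4
      rw [← h1]; simp
  · rintro (y | y) hz
    · obtain ⟨h1, _, h3, _⟩ := hz
      exact h3 (σ.injective h1)
    · rcases hz with hz | hz
      · exact hta hz.1
      · exact h.no4 hz.1
  · rintro (x | x) hs ht
    · by_cases h1 : x = a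
      · refine ⟨.inl (a + ε), Or.inl ⟨h1, rfl⟩, ?_⟩
        rintro (y | y) hy
        · rcases hy with hy | hy
          · rw [hy.2]
          · exact absurd (h1.symm.trans hy.1) haa
        · exact absurd h1 hy.2.1
      · by_cases h2 : x = a + ε
        · refine ⟨.inl a, Or.inr ⟨h2, rfl⟩, ?_⟩
          rintro (y | y) hy
          · rcases hy with hy | hy
            · exact absurd hy.1 h1
            · rw [hy.2]
          · exact absurd h2 hy.2.2.1
        · refine ⟨.inr (σ x), ⟨rfl, h1, h2, ?_⟩, ?_⟩
          · intro h3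
            apply hs
            rw [← h3]; simp
          · rintro (y | y) hy
            · rcases hy with hy | hy
              · exact absurd hy.1 h1
              · exact absurd hy.1 h2
            · rw [hy.1]
    · by_cases h1 : x = σ a
      · refine ⟨.inr (σ a + η), Or.inl ⟨h1, rfl⟩, ?_⟩
        rintro (y | y) hy
        · obtain ⟨h3, h4, _, _⟩ := hy
          exact absurd (σ.injective (h3.trans h1)) h4
        · rcases hy with hy | hy
          · rw [hy.2]
          · exact absurd (h1.symm.trans hy.1) hzz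
      · by_cases h2 : x = σ a + η
        · refine ⟨.inr (σ a), Or.inr ⟨h2, rfl⟩, ?_⟩
          rintro (y | y) hy
          · exact absurd h2 hy.2.2.2
          · rcases hy with hy | hy
            · exact absurd hy.1 h1
            · rw [hy.2]
        · refine ⟨.inl (σ.symm x), ⟨by simp, ?_, ?_, h2⟩, ?_⟩
          · intro h3
            apply h1
            rw [← h3]; simp
          · intro h3
            apply ht
            rw [← h3]; simp
          · rintro (y | y) hy
            · rw [← hy.1]; simp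
            · rcases hy with hy | hy
              · exact absurd hy.1 h1
              · exact absurd hy.1 h2
  · exact stateB_val _ _ _ _
  · have key : ∀ {δ c x y : ZMod N}, δ * δ = 1 → (y = x + δ ∨ x = y + δ) →
        ¬ ((x = c ∧ y = c + δ) ∨ (x = c + δ ∧ y = c)) →
        (((δ * (x - (c + δ))).val % 2 = 0) ↔ ¬ ((δ * (y - (c + δ))).val % 2 = 0)) := by
      intro δ c x y hδ hxy hno
      rcases hxy with hxy | hxy
      · refine rim_parity hδ hxy fun h3 => hno (Or.inl ?_)
        have h4 : x = c := by rw [h3]; ring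
        exact ⟨h4, by rw [hxy, h4]⟩
      · have h5 := rim_parity (a' := c + δ) hδ hxy fun h3 => hno (Or.inr (by
          have h4 : y = c := by rw [h3]; ring
          exact ⟨by rw [hxy, h4], h4⟩))
        tauto
    rintro (x | x) (y | y) hadj hz
    · rw [adj_ll (by omega), adj_iff_eps h.heps] at hadj
      have h6 := key hε2 hadj hz
      simp only [stateB]
      by_cases h7 : (ε * (x - (a + ε))).val % 2 = 0
      · simp [h7, h6.mp h7]
      · have h8 : (ε * (y - (a + ε))).val % 2 = 0 := by tauto
        simp [h7, h8]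
    · rw [adj_lr] at hadj
      subst hadj
      by_cases h1 : x = a
      · subst h1
        simp only [stateB]
        rw [if_pos hEa, if_pos hEz]
      · by_cases h2 : x = a + ε
        · subst h2
          simp [stateB, h1g]
        · have h3 : σ x = σ a + η := by
            by_contra h3
            exact hz ⟨rfl, h1, h2, h3⟩
          have h4 : x = σ.symm (σ a + η) := by rw [← h3]; simp
          rw [h3, h4]
          simp [stateB, h2g]
    · rw [adj_rl] at hadj
      subst hadj
      by_cases h1 : y = a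
      · subst h1
        simp only [stateB]
        rw [if_pos hEa, if_pos hEz]
        norm_num
      · by_cases h2 : y = a + ε
        · subst h2
          simp [stateB, h1g]
        · have h3 : σ y = σ a + η := by
            by_contra h3
            exact hz ⟨rfl, h1, h2, h3⟩
          have h4 : y = σ.symm (σ a + η) := by rw [← h3]; simp
          rw [h3, h4]
          simp [stateB, h2g]
    · rw [adj_rr (by omega), adj_iff_eps h.heta] at hadj
      have h6 := key hη2 hadj hz
      simp only [stateB]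
      by_cases h7 : (η * (x - (σ a + η))).val % 2 = 0
      · simp [h7, h6.mp h7]
      · have h8 : (η * (y - (σ a + η))).val % 2 = 0 := by tauto
        simp [h7, h8]
  · simp only [stateB]
    rw [if_pos h2g]

end state

section final

variable {N : ℕ} [NeZero N] {σ : Equiv.Perm (ZMod N)}

theorem perm_flow (hN : 2 < N) (hodd : N % 2 = 1)
    (hcyc : CyclicallyEdgeConnected (permGraph N σ) 5) {a ε η : ZMod N} (h : Good σ a ε η)
    (hspoke : ∀ S : Set (ZMod N ⊕ ZMod N), HasCycleIn (permGraph N σ) S →
      HasCycleIn (permGraph N σ) Sᶜ → cutSize (permGraph N σ) S = 5 →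
      (Sum.inl a ∈ S ↔ Sum.inr (σ a) ∈ S)) :
    HasFlow (permGraph N σ) (9 / 2) := by
  classical
  have hD := nearData_of_good hN hodd h
  have hreg : ∀ v, (permGraph N σ).degree v = 3 := permGraph_regular hN
  refine hasFlow_nine_halves hreg hD ?_
  intro Y hY h1 h2
  constructor
  · intro h3
    have h4 := hcyc (Y : Set _) h1 h2
    rw [cutSize_coe] at h4
    omega
  · intro h3
    have h4 := hspoke (Y : Set _) h1 h2 (by rw [cutSize_coe]; exact h3)
    have ha' : Sum.inl (a + ε) ∈ Y := hY.nbr_t hreg hD ((adj_rl _ _).mpr rfl)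
    have ha : Sum.inl a ∈ Y := by
      by_contra hcon
      refine (hY.out _ ha' _ hcon ?_).1 (Or.inr ⟨rfl, rfl⟩)
      rw [adj_ll (by omega), adj_iff_eps h.heps]
      exact Or.inr rfl
    have hz' : Sum.inr (σ a + η) ∉ Y := hY.nbr_s hD ((adj_lr _ _).mpr (by simp))
    have hz : Sum.inr (σ a) ∉ Y := by
      intro hcon
      refine (hY.out _ hcon _ hz' ?_).1 (Or.inl ⟨rfl, rfl⟩)
      rw [adj_rr (by omega), adj_iff_eps h.heta]
      exact Or.inl rfl
    exact hz (by simpa using h4.mp (by simpa using ha))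

theorem no_four (hN : 5 ≤ N) (hcyc : CyclicallyEdgeConnected (permGraph N σ) 5)
    {a ε η : ZMod N} (hε : ε = 1 ∨ ε = -1) (hη : η = 1 ∨ η = -1) :
    σ (a + ε) ≠ σ a + η := by
  classical
  intro heq
  have hreg : ∀ v, (permGraph N σ).degree v = 3 := permGraph_regular (by omega)
  have hε0 := eps_ne_zero (by omega) hε
  have hη0 := eps_ne_zero (by omega) hη
  have haa : a ≠ a + ε := by simpa using hε0
  have hzz : σ a ≠ σ a + η := by simpa using hη0
  let X : Finset (ZMod N ⊕ ZMod N) := {.inl a, .inl (a + ε), .inr (σ a), .inr (σ a + η)}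
  have hX : X.card = 4 := by
    simp only [X]
    rw [card_insert_of_notMem, card_insert_of_notMem, card_pair]
    · simpa using hη0
    · simp
    · simp [haa]
  have hone : ∀ u p q, p ∈ X → q ∈ X → p ≠ q → (permGraph N σ).Adj u p →
      (permGraph N σ).Adj u q → (∑ v ∈ Xᶜ, if (permGraph N σ).Adj u v then 1 else 0) ≤ 1 := by
    intro u p q hp hq hpq h1 h2
    have h3 := sum_adj (permGraph N σ) u
    rw [hreg u, ← sum_add_sum_compl X] at h3
    have h4 : 2 ≤ ∑ v ∈ X, (if (permGraph N σ).Adj u v then 1 else 0) := by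
      have h5 : ({p, q} : Finset _) ⊆ X := by
        intro v hv
        rw [mem_insert, mem_singleton] at hv
        rcases hv with rfl | rfl
        · exact hp
        · exact hq
      refine le_trans ?_ (sum_le_sum_of_subset h5)
      rw [sum_pair hpq]
      simp [h1, h2]
    omega
  have hdd : dd (permGraph N σ) X ≤ 4 := by
    unfold dd
    have h1 : ∀ u ∈ X, (∑ v ∈ Xᶜ, if (permGraph N σ).Adj u v then 1 else 0) ≤ 1 := by
      intro u hu
      simp only [X, mem_insert, mem_singleton] at hu
      rcases hu with rfl | rfl | rfl | rfl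
      · refine hone _ (.inl (a + ε)) (.inr (σ a)) (by simp [X]) (by simp [X]) (by simp) ?_ ?_
        · rw [adj_ll (by omega), adj_iff_eps hε]; exact Or.inl rfl
        · rw [adj_lr]
      · refine hone _ (.inl a) (.inr (σ a + η)) (by simp [X]) (by simp [X]) (by simp) ?_ ?_
        · rw [adj_ll (by omega), adj_iff_eps hε]; exact Or.inr rfl
        · rw [adj_lr, heq]
      · refine hone _ (.inr (σ a + η)) (.inl a) (by simp [X]) (by simp [X]) (by simp) ?_ ?_
        · rw [adj_rr (by omega), adj_iff_eps hη]; exact Or.inl rfl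
        · rw [adj_rl]
      · refine hone _ (.inr (σ a)) (.inl (a + ε)) (by simp [X]) (by simp [X]) (by simp) ?_ ?_
        · rw [adj_rr (by omega), adj_iff_eps hη]; exact Or.inr rfl
        · rw [adj_rl, heq]
    calc _ ≤ ∑ u ∈ X, 1 := sum_le_sum h1
      _ = 4 := by simp [hX]
  have hcomp : 4 ≤ Xᶜ.card := by
    rw [card_compl, hX]
    simp only [Fintype.card_sum, ZMod.card]
    omega
  have h1 : HasCycleIn (permGraph N σ) (X : Set _) :=
    hasCycleIn_of_dd_le _ hreg X ⟨.inl a, by simp [X]⟩ (by omega)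
  have h2 : HasCycleIn (permGraph N σ) (X : Set _)ᶜ := by
    rw [← coe_compl]
    refine hasCycleIn_of_dd_le _ hreg Xᶜ (card_pos.mp (by omega)) ?_
    rw [dd_compl]
    omega
  have h3 := hcyc (X : Set _) h1 h2
  rw [cutSize_coe] at h3
  omega

theorem neg_parity (hodd : N % 2 = 1) {w : ZMod N} (hw : w ≠ 0) (h : w.val % 2 = 0) :
    (-w).val % 2 = 1 := by
  rw [val_neg' w hw]
  have := ZMod.val_lt w
  omega

/-- Part (3). -/
theorem part_three (hN : 5 ≤ N) (hodd : Odd N)
    (hcyc : CyclicallyEdgeConnected (permGraph N σ) 5) (i : ZMod N)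
    (hspoke : ∀ S : Set (ZMod N ⊕ ZMod N), HasCycleIn (permGraph N σ) S →
      HasCycleIn (permGraph N σ) Sᶜ → cutSize (permGraph N σ) S = 5 →
      (Sum.inl i ∈ S ↔ Sum.inr (σ i) ∈ S))
    (hpar : ¬ ((σ (i + 1) - σ i).val % 2 = (σ i - σ (i - 1)).val % 2 ∧
      (σ.symm (σ i + 1) - i).val % 2 = (i - σ.symm (σ i - 1)).val % 2 ∧
      (σ (i + 1) - σ i).val % 2 ≠ (σ.symm (σ i + 1) - i).val % 2)) :
    circularFlowNumber (permGraph N σ) ≤ 9 / 2 := by
  classical
  have hodd' : N % 2 = 1 := Nat.odd_iff.mp hodd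
  have : Fact (1 < N) := ⟨by omega⟩
  have hgood : ∃ ε η : ZMod N, Good σ i ε η := by
    have e1 : (1 : ZMod N) = 1 ∨ (1 : ZMod N) = -1 := Or.inl rfl
    have e2 : (-1 : ZMod N) = 1 ∨ (-1 : ZMod N) = -1 := Or.inr rfl
    by_cases c1 : (σ (i + 1) - σ i).val % 2 = 1 ∧ (σ.symm (σ i + 1) - i).val % 2 = 1
    · exact ⟨1, 1, e1, e1, by rw [one_mul]; exact c1.1, by rw [one_mul]; exact c1.2,
        no_four hN hcyc e1 e1⟩
    by_cases c2 : (σ (i + 1) - σ i).val % 2 = 0 ∧ (i - σ.symm (σ i - 1)).val % 2 = 0
    · refine ⟨1, -1, e1, e2, ?_, ?_, no_four hN hcyc e1 e2⟩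
      · rw [neg_mul, one_mul]
        refine neg_parity hodd' ?_ c2.1
        rw [sub_ne_zero]
        exact fun h => one_ne_zero (α := ZMod N) (by simpa using σ.injective h)
      · have h1 : (1 : ZMod N) * (σ.symm (σ i + -1) - i) = -(i - σ.symm (σ i - 1)) := by
          rw [← sub_eq_add_neg]; ring
        rw [h1]
        refine neg_parity hodd' ?_ c2.2
        rw [sub_ne_zero]
        intro h
        have h2 := σ.symm_apply_eq.mp h.symm
        simp at h2
    by_cases c3 : (σ i - σ (i - 1)).val % 2 = 0 ∧ (σ.symm (σ i + 1) - i).val % 2 = 0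
    · refine ⟨-1, 1, e2, e1, ?_, ?_, no_four hN hcyc e2 e1⟩
      · have h1 : (1 : ZMod N) * (σ (i + -1) - σ i) = -(σ i - σ (i - 1)) := by
          rw [← sub_eq_add_neg]; ring
        rw [h1]
        refine neg_parity hodd' ?_ c3.1
        rw [sub_ne_zero]
        intro h
        have h2 := σ.injective h
        exact one_ne_zero (α := ZMod N) (by linear_combination h2)
      · rw [neg_mul, one_mul]
        refine neg_parity hodd' ?_ c3.2
        rw [sub_ne_zero]
        intro h
        have h2 := σ.symm_apply_eq.mp h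
        simp at h2
    · have c4 : (σ i - σ (i - 1)).val % 2 = 1 ∧ (i - σ.symm (σ i - 1)).val % 2 = 1 := by
        omega
      refine ⟨-1, -1, e2, e2, ?_, ?_, no_four hN hcyc e2 e2⟩
      · have h1 : (-1 : ZMod N) * (σ (i + -1) - σ i) = σ i - σ (i - 1) := by
          rw [← sub_eq_add_neg]; ring
        rw [h1]
        exact c4.1
      · have h1 : (-1 : ZMod N) * (σ.symm (σ i + -1) - i) = i - σ.symm (σ i - 1) := by
          rw [← sub_eq_add_neg]; ring
        rw [h1]
        exact c4.2
  obtain ⟨ε, η, hg⟩ := hgood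
  have hreg : ∀ v, (permGraph N σ).degree v = 3 := permGraph_regular (by omega)
  exact circularFlowNumber_le _ (exists_adj _ hreg (.inl i))
    (perm_flow (by omega) hodd' hcyc hg hspoke)

end final

end Pool.Agent.Helper19.CF
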